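import Pool.Agent.MpA.Bridge

set_option autoImplicit false

namespace Pool.Agent.Results.MP_b9aa18_an.IsolatedSingularities

open Pool.Agent.MpA.Stmt
open scoped ENNReal

/-- Let `1 < p < ∞` and let `m₁`, `m₂` be two characters of the multiplier algebra `M_p` which agree on
the analytic multipliers `M_p A`; let `z` be the coordinate function. Then `m₁` and `m₂` agree on the closed
subalgebra of `M_p` generated by all the multipliers which have at most an isolated singularity at the point
`m₁ z` of the circle. -/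
theorem result (p : ℝ≥0∞) [Fact (1 ≤ p)] (hp1 : 1 < p) (hp : p ≠ ⊤)
    (z : M p) (hz : ∀ n, coef z n = if n = 1 then 1 else 0) (m₁ m₂ : M p →ₐ[ℂ] ℂ)
    (h : ∀ T : M p, IsAnalytic T → m₁ T = m₂ T) (T : M p)
    (hT : T ∈ closure (Algebra.adjoin ℂ {S : M p | IsolatedAt S (m₁ z)} : Set (M p))) :
    m₁ T = m₂ T :=
  Pool.Agent.MpA.main hp1 hp z hz m₁ m₂ h T hT

end Pool.Agent.Results.MP_b9aa18_an.IsolatedSingularities
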